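import Mathlib

namespace Pool.Agent.H.MP_87030c_co
open Finset

/-- the facet family `X` can be listed so that, for each later facet, all maximal faces of the
intersection of its simplex with the complex generated by the earlier facets have `d - 1` points -/
def Shellable {m : ℕ} (d : ℕ) (X : Finset (Finset (Fin m))) : Prop :=
  ∃ l : List (Finset (Fin m)), l.Nodup ∧ l.toFinset = X ∧ ∀ (j : Fin l.length) (τ : Finset (Fin m)),
    Maximal (fun σ => σ ⊆ l[j] ∧ ∃ i < j, σ ⊆ l[i]) τ → #τ = d - 1

open Classical in
/-- proportion of shellable families among all families of `d`-subsets of an `m`-set -/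
noncomputable def prob (d m : ℕ) : ℝ :=
  #((powersetCard d (univ : Finset (Fin m))).powerset.filter (Shellable d)) /
    #(powersetCard d (univ : Finset (Fin m))).powerset

end Pool.Agent.H.MP_87030c_co
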