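import Pool.Agent.H.MP_87030c_co.Defs

namespace Pool.Agent.H.MP_87030c_co
open Finset Filter Topology

variable {m d : ℕ}

lemma add {Y : Finset (Finset (Fin m))} {F : Finset (Fin m)} (h : Shellable d Y) (hF : F ∉ Y)
    (hc : ∀ G ∈ insert F Y, #G = d)
    (g : ∀ G ∈ Y, ∃ H ∈ Y, F ∩ G ⊆ H ∧ #(F ∩ H) = d - 1) : Shellable d (insert F Y) := by
  obtain ⟨l, h1, rfl, h3⟩ := h
  refine ⟨l ++ [F], ?_, by ext; simp, fun j τ hτ => ?_⟩
  · rw [List.nodup_append_comm]; simpa using ⟨by simpa using hF, h1⟩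
  obtain ⟨j, hj⟩ := j
  simp only [Fin.getElem_fin] at hτ h3
  by_cases e : j < l.length
  · refine h3 ⟨j, e⟩ τ ?_
    convert hτ using 2 with σ
    rw [List.getElem_append_left e]
    refine and_congr_right fun _ => ⟨fun ⟨i, k1, k2⟩ => ⟨⟨i, lt_trans k1 hj⟩, k1, ?_⟩,
      fun ⟨i, k1, k2⟩ => ⟨⟨i, lt_trans k1 e⟩, k1, ?_⟩⟩
    · rwa [List.getElem_append_left i.2]
    · rwa [List.getElem_append_left (lt_trans k1 e)] at k2
  · obtain rfl : j = l.length := by simp at hj; omega
    simp only [List.getElem_concat_length] at hτ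
    obtain ⟨k1, i, k2, k3⟩ := hτ.1
    rw [List.getElem_append_left k2] at k3
    obtain ⟨H, k4, k5, k6⟩ := g _ (List.mem_toFinset.2 (List.getElem_mem k2))
    obtain ⟨t, k7, rfl⟩ := List.getElem_of_mem (List.mem_toFinset.1 k4)
    rw [← k6, hτ.eq_of_le (y := F ∩ l[t]) ⟨inter_subset_left, ⟨t, lt_trans k7 hj⟩, k7, by
      rw [List.getElem_append_left k7]; exact inter_subset_right⟩
      (subset_inter k1 ((subset_inter k1 k3).trans k5))]

lemma extend {Y Z : Finset (Finset (Fin m))} (h : Shellable d Y) (hZ : Y ⊆ Z)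
    (hc : ∀ G ∈ Z, #G = d) (g : ∀ F ∈ Z, F ∉ Y → ∀ G ∈ Z, G ≠ F →
      #(F ∩ G) = d - 1 ∨ ∃ H ∈ Y, F ∩ G ⊆ H ∧ #(F ∩ H) = d - 1) : Shellable d Z := by
  have : ∀ W : Finset (Finset (Fin m)), W ⊆ Z → Shellable d (W ∪ Y) := by
    intro W
    induction W using Finset.induction_on with
    | empty => simpa using h
    | insert F W _ ih =>
      intro k
      obtain ⟨k1, k2⟩ := insert_subset_iff.1 k
      rw [insert_union]
      by_cases e : F ∈ W ∪ Y
      · rw [insert_eq_of_mem e]; exact ih k2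
      refine add (ih k2) e (fun G k3 => hc G (insert_subset k1 (union_subset k2 hZ) k3))
        fun G k3 => ?_
      rcases g F k1 (fun k => e (mem_union_right _ k)) G (union_subset k2 hZ k3)
        (fun k => e (k ▸ k3)) with k4 | ⟨H, k4, k5⟩
      · exact ⟨G, k3, inter_subset_right, k4⟩
      · exact ⟨H, mem_union_right _ k4, k5⟩
  simpa [union_eq_left.2 hZ] using this Z le_rfl

lemma star {X : Finset (Finset (Fin m))} (hm : d ≤ m) (hc : ∀ G ∈ X, #G = d)
    (hE : ∀ B : Finset (Fin m), #B = d → ∃ w ∉ B, ∀ y ∈ B, insert w (B.erase y) ∈ X) (k : ℕ) :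
    ∀ A : Finset (Fin m), #A + k + 1 = d → Shellable d (X.filter (A ⊆ ·)) := by
  classical
  have ex : ∀ F ∈ X, ∀ G ∈ X, G ≠ F → ∃ x ∈ F, x ∉ G := fun F h1 G h2 h3 => by
    by_contra h
    push Not at h
    exact h3 (eq_of_subset_of_card_le h (by rw [hc F h1, hc G h2])).symm
  have hc' : ∀ (p : Finset (Fin m) → Prop) [DecidablePred p], ∀ G ∈ X.filter p, #G = d :=
    fun p _ G h => hc G (mem_filter.1 h).1
  induction k with
  | zero =>
    intro A hA
    refine extend (Y := ∅) ⟨[], by simp, rfl, fun j => j.elim0⟩ (empty_subset _) (hc' _)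
      fun F h1 _ G h2 h3 => Or.inl ?_
    obtain ⟨h1, h4⟩ := mem_filter.1 h1
    obtain ⟨h2, h5⟩ := mem_filter.1 h2
    obtain ⟨x, k1, k2⟩ := ex F h1 G h2 h3
    have e1 := card_le_card (subset_inter h4 h5)
    have e2 : #(F ∩ G) < #F := card_lt_card ⟨inter_subset_left, fun k => k2 (mem_inter.1 (k k1)).2⟩
    rw [hc F h1] at e2
    omega
  | succ k ih =>
    intro A hA
    obtain ⟨a, -, ha⟩ := exists_mem_notMem_of_card_lt_card
      (show #A < #(univ : Finset (Fin m)) by simp; omega)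
    have one : ∀ F ∈ X, ∀ x ∈ F, ∀ w ∉ F, ∀ G, x ∉ G → F ∩ G ⊆ insert w (F.erase x) ∧
        #(F ∩ insert w (F.erase x)) = d - 1 := fun F h1 x h2 w h3 G h4 => by
      rw [inter_insert_of_notMem h3, inter_eq_right.2 (erase_subset _ _), card_erase_of_mem h2,
        hc F h1]
      exact ⟨fun y k => mem_insert_of_mem (mem_erase.2
        ⟨fun e => h4 (e ▸ (mem_inter.1 k).2), (mem_inter.1 k).1⟩), rfl⟩
    refine extend (Y := X.filter fun F => A ⊆ F ∧ (a ∈ F ∨ ∃ w, ∀ x ∈ F, x ∉ A → x ≠ w →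
      insert a (F.erase x) ∈ X)) (extend (ih (insert a A) (by rw [card_insert_of_notMem ha]; omega))
        (fun F h => ?_) (hc' _) fun F h1 h2 G h3 h4 => ?_) (fun F h => ?_) (hc' _)
        fun F h1 h2 G h3 h4 => Or.inr ?_
    · simp only [mem_filter, insert_subset_iff] at h ⊢
      exact ⟨h.1, h.2.2, Or.inl h.2.1⟩
    · simp only [mem_filter, insert_subset_iff] at h1 h2 h3
      have k1 : a ∉ F := fun k => h2 ⟨h1.1, k, h1.2.1⟩
      obtain ⟨w, hw⟩ := h1.2.2.resolve_left k1
      by_cases e : ∃ x ∈ F, x ∉ G ∧ x ≠ w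
      · obtain ⟨x, k2, k3, k4⟩ := e
        have k5 : x ∉ A := fun k => k3 (h3.2.1 k)
        exact Or.inr ⟨_, mem_filter.2 ⟨hw x k2 k5 k4, insert_subset_insert _
          (subset_erase.2 ⟨h1.2.1, k5⟩)⟩, one F h1.1 x k2 a k1 G k3⟩
      · push Not at e
        obtain ⟨x, k2, k3⟩ := ex F h1.1 G h3.1 h4
        rw [show F ∩ G = F.erase x by
          ext y
          simp only [mem_inter, mem_erase]
          exact ⟨fun k => ⟨fun e => k3 (e ▸ k.2), k.1⟩, fun k => ⟨k.2, by_contra fun k4 =>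
            k.1 ((e y k.2 k4).trans (e x k2 k3).symm)⟩⟩, card_erase_of_mem k2, hc F h1.1]
        exact Or.inl rfl
    · simp only [mem_filter] at h ⊢
      exact ⟨h.1, h.2.1⟩
    · simp only [mem_filter] at h1 h2 h3
      have k1 : a ∉ F := fun k => h2 ⟨h1.1, h1.2, Or.inl k⟩
      obtain ⟨x, k2, k3⟩ := ex F h1.1 G h3.1 h4
      have k4 : a ∉ F.erase x := fun k => k1 (mem_of_mem_erase k)
      obtain ⟨w, k5, k6⟩ := hE (insert a (F.erase x)) (by
        rw [card_insert_of_notMem k4, card_erase_of_mem k2, hc F h1.1]; omega)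
      have k7 := k6 a (mem_insert_self _ _)
      rw [erase_insert k4] at k7
      have k8 : insert w (F.erase x) ∈ X ∧ A ⊆ insert w (F.erase x) ∧
          (a ∈ insert w (F.erase x) ∨ ∃ v, ∀ y ∈ insert w (F.erase x), y ∉ A → y ≠ v →
            insert a ((insert w (F.erase x)).erase y) ∈ X) :=
        ⟨k7, (subset_erase.2 ⟨h1.2, fun k => k3 (h3.2 k)⟩).trans (subset_insert _ _),
          Or.inr ⟨w, fun y e1 _ e3 => by
            have e4 := (mem_insert.1 e1).resolve_left e3
            have := k6 y (mem_insert_of_mem e4)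
            rwa [erase_insert_of_ne (fun e : a = y => k4 (e ▸ e4)), insert_comm,
              ← erase_insert_of_ne e3.symm] at this⟩⟩
      refine ⟨_, mem_filter.2 k8, one F h1.1 x k2 w (fun k => ?_) G k3⟩
      obtain rfl : w = x := by_contra fun e => k5 (mem_insert_of_mem (mem_erase.2 ⟨e, k⟩))
      rw [insert_erase k] at k8
      exact h2 k8

lemma count {α ι : Type} [DecidableEq α] [DecidableEq ι] (S : ι → Finset α) (W : Finset ι) :
    ∀ P : Finset α, (∀ w ∈ W, S w ⊆ P ∧ #(S w) = d) →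
      (∀ w ∈ W, ∀ v ∈ W, w ≠ v → Disjoint (S w) (S v)) →
      (#(P.powerset.filter fun X => ∀ w ∈ W, ¬ S w ⊆ X) : ℝ) =
        2 ^ #P * (1 - 1 / 2 ^ d) ^ #W := by
  induction W using Finset.induction_on with
  | empty => simp
  | insert w W hw ih =>
    intro P h1 h2
    have hd : ∀ v ∈ W, Disjoint (S v) (S w) := fun v h =>
      h2 v (mem_insert_of_mem h) w (mem_insert_self _ _) fun e => hw (e ▸ h)
    have h3 := fun u g v k => h2 u (mem_insert_of_mem g) v (mem_insert_of_mem k)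
    obtain ⟨k1, k2⟩ := h1 w (mem_insert_self _ _)
    have e1 := ih P (fun v h => h1 v (mem_insert_of_mem h)) h3
    have e2 := ih (P \ S w) (fun v h => ⟨subset_sdiff.2 ⟨(h1 v (mem_insert_of_mem h)).1, hd v h⟩,
      (h1 v (mem_insert_of_mem h)).2⟩) h3
    have e3 := card_filter_add_card_filter_not
      (s := P.powerset.filter fun X => ∀ w ∈ W, ¬ S w ⊆ X) (S w ⊆ ·)
    have e4 : #((P.powerset.filter fun X => ∀ w ∈ W, ¬ S w ⊆ X).filter (S w ⊆ ·)) =
        #((P \ S w).powerset.filter fun X => ∀ w ∈ W, ¬ S w ⊆ X) := by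
      refine card_nbij' (· \ S w) (· ∪ S w) (fun X h => ?_) (fun X h => ?_) (fun X h => ?_)
        fun X h => ?_ <;> simp only [coe_filter, mem_filter, mem_powerset, Set.mem_setOf_eq] at h ⊢
      · exact ⟨sdiff_subset_sdiff h.1.1 le_rfl, fun v g k => h.1.2 v g (k.trans sdiff_subset)⟩
      · exact ⟨⟨union_subset (h.1.trans sdiff_subset) k1, fun v g k =>
          h.2 v g ((hd v g).left_le_of_le_sup_right k)⟩, subset_union_right⟩
      · exact sdiff_union_of_subset h.2
      · exact union_sdiff_cancel_right (subset_sdiff.1 h.1).2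
    have e5 : #(P \ S w) + d = #P := by rw [← k2, card_sdiff_add_card_eq_card k1]
    rw [e4, filter_filter] at e3
    have e6 := congrArg (Nat.cast (R := ℝ)) e3
    push_cast at e6
    rw [e1, e2, ← e5] at e6
    simp only [forall_mem_insert, and_comm (a := ¬ S w ⊆ _)]
    rw [card_insert_of_notMem hw, ← e5, eq_sub_of_add_eq' e6, pow_add, pow_succ]
    field_simp

lemma bound (hd : 1 ≤ d) (hm : d ≤ m) :
    1 - prob d m ≤ (m : ℝ) ^ d * (1 - 1 / 2 ^ d) ^ (m - d) := by
  classical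
  set P := powersetCard d (univ : Finset (Fin m)) with hP
  have h1 : P.powerset.filter (¬ Shellable d ·) ⊆ P.biUnion fun B =>
      P.powerset.filter fun X => ∀ w ∈ Bᶜ, ¬ B.image (fun y => insert w (B.erase y)) ⊆ X := by
    intro X h
    obtain ⟨k1, k2⟩ := mem_filter.1 h
    by_contra g
    obtain ⟨k, rfl⟩ := Nat.exists_eq_add_of_le' hd
    have := star (X := X) hm (fun G e => (mem_powersetCard.1 (mem_powerset.1 k1 e)).2)
      (fun B e => ?_) k ∅ (by simp)
    · exact k2 (by simpa using this)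
    by_contra g'
    refine g (mem_biUnion.2 ⟨B, mem_powersetCard.2 ⟨subset_univ _, e⟩, mem_filter.2
      ⟨k1, fun w g1 g2 => g' ⟨w, mem_compl.1 g1, fun y g3 => g2 (mem_image_of_mem _ g3)⟩⟩⟩)
  have h2 : (#(P.powerset.filter (¬ Shellable d ·)) : ℝ) ≤
      #P * (2 ^ #P * (1 - 1 / 2 ^ d) ^ (m - d)) := by
    refine (Nat.cast_le.2 ((card_le_card h1).trans card_biUnion_le)).trans ?_
    rw [Nat.cast_sum, ← nsmul_eq_mul]
    refine sum_le_card_nsmul _ _ _ fun B hB => le_of_eq ?_
    have e := (mem_powersetCard.1 hB).2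
    convert count (d := d) (fun w => B.image fun y => insert w (B.erase y)) Bᶜ P
      (fun w g => ⟨?_, ?_⟩) fun w g1 v g2 g3 => ?_
    · rfl
    · rw [card_compl, e, Fintype.card_fin]
    · refine image_subset_iff.2 fun y k => mem_powersetCard.2 ⟨subset_univ _, ?_⟩
      rw [card_insert_of_notMem fun k => mem_compl.1 g (mem_of_mem_erase k), card_erase_of_mem k]
      omega
    · rw [card_image_of_injOn fun y k1 z k2 k3 => ?_, e]
      by_contra k4
      have : y ∈ insert w (B.erase y) := by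
        rw [show insert w (B.erase y) = insert w (B.erase z) from k3]
        exact mem_insert_of_mem (mem_erase.2 ⟨k4, k1⟩)
      rcases mem_insert.1 this with k | k
      · exact mem_compl.1 g (k ▸ k1)
      · exact notMem_erase _ _ k
    · refine disjoint_left.2 fun T k1 k2 => ?_
      obtain ⟨y, -, rfl⟩ := mem_image.1 k1
      obtain ⟨z, -, k⟩ := mem_image.1 k2
      rcases mem_insert.1 (k ▸ mem_insert_self w (B.erase y)) with k | k
      · exact g3 k
      · exact mem_compl.1 g1 (mem_of_mem_erase k)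
  have h3 := congrArg (Nat.cast (R := ℝ))
    (card_filter_add_card_filter_not (s := P.powerset) (Shellable d ·))
  have h4 : (#P : ℝ) ≤ (m : ℝ) ^ d := by
    rw [hP, card_powersetCard, card_univ, Fintype.card_fin]
    exact_mod_cast Nat.choose_le_pow m d
  have h5 : (0 : ℝ) ≤ (1 - 1 / 2 ^ d) ^ (m - d) :=
    pow_nonneg (sub_nonneg.2 (div_le_one_of_le₀ (one_le_pow₀ one_le_two) (by positivity))) _
  rw [prob, ← hP, one_sub_div (by simp), div_le_iff₀ (by simp)]
  rw [card_powerset] at h3 ⊢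
  push_cast at h3 ⊢
  nlinarith [mul_le_mul_of_nonneg_right h4 (mul_nonneg (show (0 : ℝ) ≤ 2 ^ #P by positivity) h5)]

theorem main (d : ℕ) (hd : 1 ≤ d) : Tendsto (prob d) atTop (𝓝 1) := by
  classical
  have h0 : (0 : ℝ) < 1 - 1 / 2 ^ d :=
    sub_pos.2 ((div_lt_one (by positivity)).2 (one_lt_pow₀ one_lt_two (by omega)))
  have h1 := (tendsto_pow_const_mul_const_pow_of_abs_lt_one d (r := 1 - 1 / 2 ^ d)
    (by rw [abs_of_pos h0, sub_lt_self_iff]; positivity)).div_const ((1 - 1 / 2 ^ d) ^ d)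
  have h2 := (tendsto_const_nhds (x := (1 : ℝ))).sub h1
  rw [zero_div, sub_zero] at h2
  refine tendsto_of_tendsto_of_tendsto_of_le_of_le' h2 tendsto_const_nhds ?_
    (Eventually.of_forall fun m => div_le_one_of_le₀ (Nat.cast_le.2 (card_filter_le _ _))
      (Nat.cast_nonneg _))
  filter_upwards [eventually_ge_atTop d] with m hm
  have := bound hd hm
  rw [pow_sub₀ _ h0.ne' hm] at this
  rw [mul_div_assoc, div_eq_mul_inv]
  linarith

end Pool.Agent.H.MP_87030c_co
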